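import Pool.Agent.Y282.WI.Stm

/-! # Project WI, P: perturbation of the optimum (helper686) -/

set_option autoImplicit false

namespace Pool.Agent.Y282.WI.P

open Filter Topology
open Pool.Agent.Y282.WI

noncomputable def sq (p : ℝ) : ℝ := √(p ^ 2 - 4 * (1 - 2 * p) ^ 2)

noncomputable def aa (p : ℝ) : ℝ := (p + sq p) / 2

lemma aa_cont : Continuous aa := by
  unfold aa sq
  fun_prop

lemma sq0 : sq (53 / 120) = 3 / 8 := by
  unfold sq
  rw [show ((53 / 120 : ℝ) ^ 2 - 4 * (1 - 2 * (53 / 120)) ^ 2) = (3 / 8) ^ 2 by norm_num]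
  exact Real.sqrt_sq (by norm_num)

lemma aa0 : aa (53 / 120) = 49 / 120 := by
  unfold aa
  rw [sq0]
  norm_num

lemma aa_eq {p : ℝ} (h : 0 ≤ p ^ 2 - 4 * (1 - 2 * p) ^ 2) :
    aa p ^ 2 - p * aa p + (1 - 2 * p) ^ 2 = 0 := by
  have h1 : sq p ^ 2 = p ^ 2 - 4 * (1 - 2 * p) ^ 2 := Real.sq_sqrt h
  unfold aa
  linear_combination (1 / 4) * h1

lemma Pg_smul (p a c : ℝ) (y : Fin 12 → ℝ) : Pg p a (c • y) = c ^ 2 * Pg p a y := by
  unfold Pg
  simp only [Pi.smul_apply, smul_eq_mul]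
  ring

lemma f_cont : Continuous (fun z : ℝ × (Fin 12 → ℝ) => Pg z.1 (aa z.1) z.2) := by
  have := aa_cont
  unfold Pg
  fun_prop

lemma g_cont (y : Fin 12 → ℝ) : Continuous (fun p : ℝ => Pg p (aa p) y) := by
  have := aa_cont
  unfold Pg
  fun_prop

lemma sum12 (f : Fin 12 → ℝ) : ∑ i, f i =
    f 0 + f 1 + f 2 + f 3 + f 4 + f 5 + f 6 + f 7 + f 8 + f 9 + f 10 + f 11 := by
  rw [Fin.sum_univ_castSucc, Fin.sum_univ_castSucc, Fin.sum_univ_castSucc,
    Fin.sum_univ_castSucc, Fin.sum_univ_eight]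
  rfl

/-- uniform positivity -/
lemma unif (h3 : S_P3) : ∃ κ : ℝ, 0 < κ ∧ ∀ᶠ p in 𝓝 (53 / 120 : ℝ), ∀ y : Fin 12 → ℝ,
    κ * y 11 ^ 2 ≤ Pg p (aa p) y := by
  let S : Set (Fin 12 → ℝ) := {y | ∑ i, y i ^ 2 = 1}
  have hle : ∀ (y : Fin 12 → ℝ) (j : Fin 12), y j ^ 2 ≤ ∑ i, y i ^ 2 := fun y j =>
    Finset.single_le_sum (f := fun i => y i ^ 2) (fun i _ => sq_nonneg _) (Finset.mem_univ j)
  have hS : IsCompact S := by
    refine Metric.isCompact_of_isClosed_isBounded ?_ ?_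
    · exact isClosed_eq (by fun_prop) continuous_const
    · refine (Metric.isBounded_closedBall (x := (0 : Fin 12 → ℝ)) (r := 1)).subset ?_
      intro y hy
      rw [mem_closedBall_zero_iff, pi_norm_le_iff_of_nonneg zero_le_one]
      intro j
      have h1 : y j ^ 2 ≤ 1 := (hle y j).trans_eq hy
      rw [Real.norm_eq_abs]
      exact sq_le_one_iff_abs_le_one _ |>.1 h1
  have hne : S.Nonempty := by
    refine ⟨Pi.single 0 1, ?_⟩
    show ∑ i, (Pi.single (0 : Fin 12) (1 : ℝ) : Fin 12 → ℝ) i ^ 2 = 1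
    rw [Finset.sum_eq_single (0 : Fin 12)]
    · simp
    · intro i _ hi
      simp [Pi.single_eq_of_ne hi]
    · simp
  obtain ⟨y₀, hy₀, hmin⟩ := hS.exists_isMinOn hne
    (f := fun y => Pg (53 / 120) (aa (53 / 120)) y)
    (f_cont.comp (by fun_prop : Continuous fun y : Fin 12 → ℝ => ((53 / 120 : ℝ), y))).continuousOn
  have hy0 : y₀ ≠ 0 := by
    rintro rfl
    have : (∑ i : Fin 12, (0 : Fin 12 → ℝ) i ^ 2) = 1 := hy₀
    simp at this
  have hpos : 0 < Pg (53 / 120) (aa (53 / 120)) y₀ := by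
    rw [aa0]
    exact h3 y₀ hy0
  set κ := Pg (53 / 120) (aa (53 / 120)) y₀ / 2 with hκ
  refine ⟨κ, by positivity, ?_⟩
  have h4 : ∀ᶠ p in 𝓝 (53 / 120 : ℝ), ∀ y ∈ S, κ < Pg p (aa p) y := by
    refine hS.eventually_forall_of_forall_eventually fun y hy => ?_
    have h5 : κ < Pg (53 / 120) (aa (53 / 120)) y := by
      have := hmin hy
      simp only [Set.mem_ofPred_eq] at this
      linarith
    exact f_cont.continuousAt.eventually (lt_mem_nhds h5)
  filter_upwards [h4] with p hp y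
  rcases eq_or_ne y 0 with rfl | hy
  · have : Pg p (aa p) 0 = 0 := by
      have := Pg_smul p (aa p) 0 0
      rw [smul_zero] at this
      rw [this]
      ring
    rw [this]
    simp
  · have hN : 0 < ∑ i, y i ^ 2 := by
      obtain ⟨j, hj⟩ := Function.ne_iff.1 hy
      have h1 : 0 < y j ^ 2 := by
        have : y j ≠ 0 := hj
        positivity
      exact h1.trans_le (hle y j)
    set N := ∑ i, y i ^ 2 with hNdef
    have h6 : ((√N)⁻¹ • y) ∈ S := by
      show ∑ i, ((√N)⁻¹ • y) i ^ 2 = 1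
      simp only [Pi.smul_apply, smul_eq_mul, mul_pow]
      rw [← Finset.mul_sum, ← hNdef, inv_pow, Real.sq_sqrt hN.le]
      exact inv_mul_cancel₀ hN.ne'
    have h7 := hp _ h6
    rw [Pg_smul, inv_pow, Real.sq_sqrt hN.le, ← div_eq_inv_mul, lt_div_iff₀ hN] at h7
    have hκ0 : 0 < κ := by positivity
    have h8 := hle y 11
    nlinarith

lemma bil (h1 : S_P1) (p a : ℝ) (x y : Fin 12 → ℝ) :
    x ⬝ᵥ (Am p a).mulVec y = (Pg p a (x + y) - Pg p a x - Pg p a y) / 2 := by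
  rw [h1.1, h1.1, h1.1, Matrix.mulVec_add, dotProduct_add, add_dotProduct, add_dotProduct,
    h1.2 p a y x]
  ring

lemma entry (h1 : S_P1) (p a : ℝ) (i j : Fin 12) : Am p a i j =
    (Pg p a (Pi.single i 1 + Pi.single j 1) - Pg p a (Pi.single i 1) -
      Pg p a (Pi.single j 1)) / 2 := by
  rw [← bil h1]
  simp

lemma A_cont (h1 : S_P1) : Continuous (fun p : ℝ => Am p (aa p)) := by
  refine continuous_matrix fun i j => ?_
  have h2 : (fun p : ℝ => Am p (aa p) i j) = fun p =>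
    (Pg p (aa p) (Pi.single i 1 + Pi.single j 1) - Pg p (aa p) (Pi.single i 1) -
      Pg p (aa p) (Pi.single j 1)) / 2 := funext fun p => entry h1 p (aa p) i j
  rw [h2]
  have h3 := g_cont
  have h5 := h3 (Pi.single i 1 + Pi.single j 1)
  have h6 := h3 (Pi.single i 1)
  have h7 := h3 (Pi.single j 1)
  exact Continuous.div_const ((h5.sub h6).sub h7) 2

/-- the right-hand side -/
def ee : Fin 12 → ℝ := fun i => if i = 11 then 0 else 1

/-- the solution of the linear system -/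
noncomputable def yy (p : ℝ) : Fin 12 → ℝ :=
  (Am p (aa p)).det⁻¹ • (Am p (aa p)).adjugate.mulVec ee

/-- sum of the first eleven coordinates -/
def sg (y : Fin 12 → ℝ) : ℝ :=
  y 0 + y 1 + y 2 + y 3 + y 4 + y 5 + y 6 + y 7 + y 8 + y 9 + y 10

lemma dot_ee (y : Fin 12 → ℝ) : y ⬝ᵥ ee = sg y := by
  unfold dotProduct
  rw [sum12]
  have h : ∀ i : Fin 12, i ≠ 11 → y i * ee i = y i := fun i hi => by
    unfold ee
    rw [if_neg hi, mul_one]
  rw [h 0 (by decide), h 1 (by decide), h 2 (by decide), h 3 (by decide), h 4 (by decide),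
    h 5 (by decide), h 6 (by decide), h 7 (by decide), h 8 (by decide), h 9 (by decide),
    h 10 (by decide)]
  have h11 : y 11 * ee 11 = 0 := by
    unfold ee
    rw [if_pos rfl, mul_zero]
  rw [h11, add_zero]
  rfl

theorem main : S_P1 → S_P2 → S_P3 → S_P := by
  intro h1 h2 h3
  obtain ⟨κ, hκ, hU⟩ := unif h3
  obtain ⟨ν₀, x₀, hν0, hν1, hx0, hx11, hsum, hA⟩ := h2
  have hA' : (Am (53 / 120) (aa (53 / 120))).mulVec x₀ = ν₀ • ee := by
    rw [aa0, hA]
    funext i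
    simp only [ee, Pi.smul_apply, smul_eq_mul]
    split_ifs <;> ring
  -- invertibility
  have hdet0 : (Am (53 / 120) (aa (53 / 120))).det ≠ 0 := by
    intro h0
    obtain ⟨v, hv, hv0⟩ := Matrix.exists_mulVec_eq_zero_iff.2 h0
    have h4 := h3 v hv
    rw [h1.1, ← aa0, hv0] at h4
    simp at h4
  have hy0 : yy (53 / 120) = ν₀⁻¹ • x₀ := by
    unfold yy
    have h4 : ee = ν₀⁻¹ • (Am (53 / 120) (aa (53 / 120))).mulVec x₀ := by
      rw [hA', smul_smul, inv_mul_cancel₀ hν0.ne', one_smul]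
    conv_lhs => rw [h4]
    rw [Matrix.mulVec_smul, Matrix.mulVec_mulVec, Matrix.adjugate_mul, Matrix.smul_mulVec,
      Matrix.one_mulVec, smul_smul, smul_smul]
    congr 1
    have := hν0.ne'
    field_simp
  have hycont : ContinuousAt yy (53 / 120) := by
    unfold yy
    have hc := A_cont h1
    have c1 : Continuous fun p : ℝ => (Am p (aa p)).det := hc.matrix_det
    have c2 : Continuous fun p : ℝ => (Am p (aa p)).adjugate.mulVec ee :=
      hc.matrix_adjugate.matrix_mulVec continuous_const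
    exact (c1.continuousAt.inv₀ hdet0).smul c2.continuousAt
  have hdet : ∀ᶠ p in 𝓝 (53 / 120 : ℝ), (Am p (aa p)).det ≠ 0 :=
    (A_cont h1).matrix_det.continuousAt.eventually_ne hdet0
  have hyi : ∀ i, ContinuousAt (fun p => yy p i) (53 / 120) := fun i =>
    (continuous_apply i).continuousAt.comp hycont
  have hsg : ContinuousAt (fun p => sg (yy p)) (53 / 120) := by
    unfold sg
    exact (((((((((((hyi 0).add (hyi 1)).add (hyi 2)).add (hyi 3)).add (hyi 4)).add (hyi 5)).add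
      (hyi 6)).add (hyi 7)).add (hyi 8)).add (hyi 9)).add (hyi 10))
  have hsg0 : sg (yy (53 / 120)) = ν₀⁻¹ := by
    rw [hy0]
    unfold sg
    simp only [Pi.smul_apply, smul_eq_mul]
    rw [← mul_add, ← mul_add, ← mul_add, ← mul_add, ← mul_add, ← mul_add, ← mul_add, ← mul_add,
      ← mul_add, ← mul_add, hsum, mul_one]
  have hνc : ContinuousAt (fun p => (sg (yy p))⁻¹) (53 / 120) :=
    hsg.inv₀ (by rw [hsg0]; exact inv_ne_zero hν0.ne')
  have hν00 : (sg (yy (53 / 120)))⁻¹ = ν₀ := by rw [hsg0, inv_inv]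
  have hxc : ∀ i, ContinuousAt (fun p => (sg (yy p))⁻¹ * yy p i) (53 / 120) := fun i =>
    hνc.mul (hyi i)
  have hx00 : ∀ i, (sg (yy (53 / 120)))⁻¹ * yy (53 / 120) i = x₀ i := fun i => by
    rw [hν00, hy0, Pi.smul_apply, smul_eq_mul, ← mul_assoc, mul_inv_cancel₀ hν0.ne', one_mul]
  -- events
  have e1 : ∀ᶠ p in 𝓝 (53 / 120 : ℝ), 0 < (sg (yy p))⁻¹ :=
    hνc.eventually (lt_mem_nhds (hν0.trans_eq hν00.symm))
  have e2 : ∀ᶠ p in 𝓝 (53 / 120 : ℝ), (sg (yy p))⁻¹ < 1 :=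
    hνc.eventually (gt_mem_nhds (hν00.trans_lt hν1))
  have e3 : ∀ᶠ p in 𝓝 (53 / 120 : ℝ), ∀ i, 0 < (sg (yy p))⁻¹ * yy p i := by
    rw [Filter.eventually_all]
    exact fun i => (hxc i).eventually (lt_mem_nhds ((hx0 i).trans_eq (hx00 i).symm))
  have e4 : ∀ᶠ p in 𝓝 (53 / 120 : ℝ), 0 < aa p :=
    aa_cont.continuousAt.eventually (lt_mem_nhds (by rw [aa0]; norm_num))
  have hrc : ContinuousAt (fun p => (1 - 2 * p) / aa p) (53 / 120) :=
    ContinuousAt.div (by fun_prop) aa_cont.continuousAt (by rw [aa0]; norm_num)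
  have hr0 : (1 - 2 * (53 / 120 : ℝ)) / aa (53 / 120) = 2 / 7 := by
    rw [aa0]
    norm_num
  have e5 : ∀ᶠ p in 𝓝 (53 / 120 : ℝ), 0 < (1 - 2 * p) / aa p :=
    hrc.eventually (lt_mem_nhds ((by norm_num : (0 : ℝ) < 2 / 7).trans_eq hr0.symm))
  have e6 : ∀ᶠ p in 𝓝 (53 / 120 : ℝ), (1 - 2 * p) / aa p < 1 :=
    hrc.eventually (gt_mem_nhds (hr0.trans_lt (by norm_num : (2 / 7 : ℝ) < 1)))
  have e7 : ∀ᶠ p in 𝓝 (53 / 120 : ℝ), 0 < p ^ 2 - 4 * (1 - 2 * p) ^ 2 :=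
    (by fun_prop : ContinuousAt (fun p : ℝ => p ^ 2 - 4 * (1 - 2 * p) ^ 2) (53 / 120)).eventually
      (lt_mem_nhds (by norm_num))
  have e8 : ∀ᶠ p in 𝓝 (53 / 120 : ℝ), 0 < (1 - (1 - 2 * p) / aa p) * ((sg (yy p))⁻¹ * yy p 0) -
      (sg (yy p))⁻¹ * yy p 11 := by
    have c : ContinuousAt (fun p => (1 - (1 - 2 * p) / aa p) * ((sg (yy p))⁻¹ * yy p 0) -
      (sg (yy p))⁻¹ * yy p 11) (53 / 120) :=
      ((continuousAt_const.sub hrc).mul (hxc 0)).sub (hxc 11)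
    refine c.eventually (lt_mem_nhds ?_)
    show 0 < (1 - (1 - 2 * (53 / 120 : ℝ)) / aa (53 / 120)) *
      ((sg (yy (53 / 120)))⁻¹ * yy (53 / 120) 0) - (sg (yy (53 / 120)))⁻¹ * yy (53 / 120) 11
    rw [hr0, hx00, hx00]
    linarith
  have key : ∀ᶠ p in 𝓝 (53 / 120 : ℝ), ∃ (a r ν κ : ℝ) (x : Fin 12 → ℝ), Good p a r ν κ x := by
    filter_upwards [hU, hdet, e1, e2, e3, e4, e5, e6, e7, e8] with p hU hdet e1 e2 e3 e4 e5 e6 e7 e8
    have hq := aa_eq e7.le
    have hσ : sg (yy p) ≠ 0 := fun h => by rw [h, inv_zero] at e1; exact lt_irrefl _ e1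
    set σ := sg (yy p) with hσdef
    have hAy : (Am p (aa p)).mulVec (yy p) = ee := by
      unfold yy
      rw [Matrix.mulVec_smul, Matrix.mulVec_mulVec, Matrix.mul_adjugate, Matrix.smul_mulVec,
        Matrix.one_mulVec, smul_smul, inv_mul_cancel₀ hdet, one_smul]
    have hAx : (Am p (aa p)).mulVec (σ⁻¹ • yy p) = σ⁻¹ • ee := by
      rw [Matrix.mulVec_smul, hAy]
    have hsx : sg (σ⁻¹ • yy p) = 1 := by
      have : sg (σ⁻¹ • yy p) = σ⁻¹ * sg (yy p) := by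
        unfold sg
        simp only [Pi.smul_apply, smul_eq_mul]
        ring
      rw [this, ← hσdef, inv_mul_cancel₀ hσ]
    refine ⟨aa p, (1 - 2 * p) / aa p, σ⁻¹, κ, σ⁻¹ • yy p, e4, e5, e6, ?_, ?_, hκ, e1, e2, e3, ?_,
      hU, hsx, ?_⟩
    · have e4' := e4.ne'
      field_simp
      linear_combination hq
    · exact mul_div_cancel₀ _ e4.ne'
    · have : (σ⁻¹ • yy p) 11 = σ⁻¹ * yy p 11 := rfl
      have h0 : (σ⁻¹ • yy p) 0 = σ⁻¹ * yy p 0 := rfl
      rw [this, h0]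
      linarith
    · intro y
      have b1 := bil h1 p (aa p) (y - σ⁻¹ • yy p) (σ⁻¹ • yy p)
      rw [sub_add_cancel, hAx, dotProduct_smul, smul_eq_mul, sub_dotProduct, dot_ee, dot_ee,
        hsx] at b1
      have b2 : Pg p (aa p) (σ⁻¹ • yy p) = σ⁻¹ := by
        rw [h1.1, hAx, dotProduct_smul, smul_eq_mul, dot_ee, hsx, mul_one]
      rw [b2] at b1
      show Pg p (aa p) y = σ⁻¹ + 2 * σ⁻¹ * (sg y - 1) + Pg p (aa p) (y - σ⁻¹ • yy p)
      linarith
  obtain ⟨δ, hδ, hδ'⟩ := Metric.eventually_nhds_iff.1 key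
  exact ⟨δ, hδ, fun p hp => hδ' (by rw [Real.dist_eq]; exact hp)⟩

end Pool.Agent.Y282.WI.P
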