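import Pool.Agent.Y282.WI.Stm

set_option autoImplicit false

/-! The matrix of the core form (helper74). -/

namespace Pool.Agent.Y282.WI.P1

open Pool.Agent.Y282.WI

theorem sum12 (f : Fin 12 → ℝ) : ∑ i, f i = f 0 + f 1 + f 2 + f 3 + f 4 + f 5 + f 6 + f 7 + f 8 +
    f 9 + f 10 + f 11 := by
  rw [Fin.sum_univ_castSucc, Fin.sum_univ_castSucc, Fin.sum_univ_castSucc, Fin.sum_univ_castSucc,
    Fin.sum_univ_eight]
  rfl

theorem row0 (p a : ℝ) (x : Fin 12 → ℝ) : (Am p a).mulVec x 0 =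
    (1 - p) * x 0 + (1 - p) * x 1 + (p) * x 2 + (p) * x 3 + (p) * x 4 + (p) * x 5 := by
  rw [Matrix.mulVec, dotProduct, sum12]
  simp [Am]

theorem row1 (p a : ℝ) (x : Fin 12 → ℝ) : (Am p a).mulVec x 1 =
    (1 - p) * x 0 + (1) * x 1 + (1 - p) * x 2 + (p) * x 3 + (p) * x 5 + (-(1 - 2 * p)) * x 11 := by
  rw [Matrix.mulVec, dotProduct, sum12]
  simp [Am]

theorem row2 (p a : ℝ) (x : Fin 12 → ℝ) : (Am p a).mulVec x 2 =
    (p) * x 0 + (1 - p) * x 1 + (1) * x 2 + (p) * x 5 + (p) * x 6 + (1 - 2 * p) * x 11 := by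
  rw [Matrix.mulVec, dotProduct, sum12]
  simp [Am]

theorem row3 (p a : ℝ) (x : Fin 12 → ℝ) : (Am p a).mulVec x 3 =
    (p) * x 0 + (p) * x 1 + (1) * x 3 + (1 - p) * x 4 := by
  rw [Matrix.mulVec, dotProduct, sum12]
  simp [Am]

theorem row4 (p a : ℝ) (x : Fin 12 → ℝ) : (Am p a).mulVec x 4 =
    (p) * x 0 + (1 - p) * x 3 + (1) * x 4 + (p) * x 5 := by
  rw [Matrix.mulVec, dotProduct, sum12]
  simp [Am]

theorem row5 (p a : ℝ) (x : Fin 12 → ℝ) : (Am p a).mulVec x 5 =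
    (p) * x 0 + (p) * x 1 + (p) * x 2 + (p) * x 4 + (1) * x 5 := by
  rw [Matrix.mulVec, dotProduct, sum12]
  simp [Am]

theorem row6 (p a : ℝ) (x : Fin 12 → ℝ) : (Am p a).mulVec x 6 =
    (p) * x 2 + (1) * x 6 + (p) * x 7 := by
  rw [Matrix.mulVec, dotProduct, sum12]
  simp [Am]

theorem row7 (p a : ℝ) (x : Fin 12 → ℝ) : (Am p a).mulVec x 7 =
    (p) * x 6 + (1) * x 7 + (p) * x 8 := by
  rw [Matrix.mulVec, dotProduct, sum12]
  simp [Am]

theorem row8 (p a : ℝ) (x : Fin 12 → ℝ) : (Am p a).mulVec x 8 =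
    (p) * x 7 + (1) * x 8 + (p) * x 9 := by
  rw [Matrix.mulVec, dotProduct, sum12]
  simp [Am]

theorem row9 (p a : ℝ) (x : Fin 12 → ℝ) : (Am p a).mulVec x 9 =
    (p) * x 8 + (1) * x 9 + (p) * x 10 := by
  rw [Matrix.mulVec, dotProduct, sum12]
  simp [Am]

theorem row10 (p a : ℝ) (x : Fin 12 → ℝ) : (Am p a).mulVec x 10 =
    (p) * x 9 + (1) * x 10 := by
  rw [Matrix.mulVec, dotProduct, sum12]
  simp [Am]

theorem row11 (p a : ℝ) (x : Fin 12 → ℝ) : (Am p a).mulVec x 11 =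
    (-(1 - 2 * p)) * x 1 + (1 - 2 * p) * x 2 + (a) * x 11 := by
  rw [Matrix.mulVec, dotProduct, sum12]
  simp [Am]

theorem main : S_P1 := by
  refine ⟨fun p a x => ?_, fun p a x y => ?_⟩
  · rw [dotProduct, sum12, row0, row1, row2, row3, row4, row5, row6, row7, row8, row9, row10, row11]
    unfold Pg
    ring
  · rw [dotProduct, dotProduct, sum12, sum12, row0, row1, row2, row3, row4, row5, row6, row7, row8, row9, row10, row11,
      row0, row1, row2, row3, row4, row5, row6, row7, row8, row9, row10, row11]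
    ring

end Pool.Agent.Y282.WI.P1
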