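import Pool.Agent.Y282.WI.Stm
import Pool.Agent.H240R3.WT.Core

/-! # Project WI (helper282): positive definiteness of the core form at `p = 53/120` -/

set_option autoImplicit false

namespace Pool.Agent.Y282.WI.P3

open Pool.Agent.H240R3.WT

theorem twelve {a0 a1 a2 a3 a4 a5 a6 a7 a8 a9 a10 a11 : ℝ}
    (h : a0 + a1 + a2 + a3 + a4 + a5 + a6 + a7 + a8 + a9 + a10 + a11 ≤ 0)
    (h0 : 0 ≤ a0) (h1 : 0 ≤ a1) (h2 : 0 ≤ a2) (h3 : 0 ≤ a3) (h4 : 0 ≤ a4) (h5 : 0 ≤ a5)
    (h6 : 0 ≤ a6) (h7 : 0 ≤ a7) (h8 : 0 ≤ a8) (h9 : 0 ≤ a9) (h10 : 0 ≤ a10) (h11 : 0 ≤ a11) :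
    a0 = 0 ∧ a1 = 0 ∧ a2 = 0 ∧ a3 = 0 ∧ a4 = 0 ∧ a5 = 0 ∧ a6 = 0 ∧ a7 = 0 ∧ a8 = 0 ∧ a9 = 0 ∧
      a10 = 0 ∧ a11 = 0 := by
  refine ⟨?_, ?_, ?_, ?_, ?_, ?_, ?_, ?_, ?_, ?_, ?_, ?_⟩ <;> linarith

theorem key {c s : ℝ} (hc : 0 < c) (h : c * s ^ 2 = 0) : s = 0 := by
  rcases mul_eq_zero.1 h with h1 | h1
  · exact absurd h1 hc.ne'
  · exact pow_eq_zero_iff (two_ne_zero) |>.1 h1

theorem main : S_P3 := by
  intro y hy
  by_contra hcon
  rw [not_lt] at hcon
  have h0 : Pg (53 / 120) (49 / 120) y = Pq (y 0) (y 1) (y 2) (y 3) (y 4) (y 5) (y 6) (y 7) (y 8)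
      (y 9) (y 10) (y 11) := by
    unfold Pg Pq
    ring
  rw [h0, Pq_sos] at hcon
  obtain ⟨e0, e1, e2, e3, e4, e5, e6, e7, e8, e9, e10, e11⟩ := twelve hcon (by positivity)
    (by positivity) (by positivity) (by positivity) (by positivity) (by positivity)
    (by positivity) (by positivity) (by positivity) (by positivity) (by positivity)
    (by positivity)
  have z11 : y 11 = 0 := key (by norm_num) e11
  have z10 : y 10 = 0 := by
    have := key (by norm_num) e10
    rw [z11] at this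
    linarith
  have z9 : y 9 = 0 := by
    have := key (by norm_num) e9
    rw [z11, z10] at this
    linarith
  have z8 : y 8 = 0 := by
    have := key (by norm_num) e8
    rw [z11, z9] at this
    linarith
  have z7 : y 7 = 0 := by
    have := key (by norm_num) e7
    rw [z11, z8] at this
    linarith
  have z6 : y 6 = 0 := by
    have := key (by norm_num) e6
    rw [z11, z7] at this
    linarith
  have z5 : y 5 = 0 := by
    have := key (by norm_num) e5
    rw [z11, z6] at this
    linarith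
  have z4 : y 4 = 0 := by
    have := key (by norm_num) e4
    rw [z11, z6, z5] at this
    linarith
  have z3 : y 3 = 0 := by
    have := key (by norm_num) e3
    rw [z11, z6, z5, z4] at this
    linarith
  have z2 : y 2 = 0 := by
    have := key (by norm_num) e2
    rw [z11, z6, z5, z4, z3] at this
    linarith
  have z1 : y 1 = 0 := by
    have := key (by norm_num) e1
    rw [z11, z4, z2] at this
    linarith
  have z0 : y 0 = 0 := by
    have := key (by norm_num) e0
    rw [z5, z4, z3, z2, z1] at this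
    linarith
  apply hy
  funext i
  fin_cases i
  · exact z0
  · exact z1
  · exact z2
  · exact z3
  · exact z4
  · exact z5
  · exact z6
  · exact z7
  · exact z8
  · exact z9
  · exact z10
  · exact z11

end Pool.Agent.Y282.WI.P3
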