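import Pool.Agent.Y282.WI.M
import Pool.Agent.Y282.WI.P
import Pool.Agent.Y282.WI.P1
import Pool.Agent.Y282.WI.P3
import Pool.Agent.Y65.WI.F
import Pool.Agent.Y65.WI.P2

/-! # Project WI: final assembly (helper282) -/

set_option autoImplicit false

namespace Pool.Agent.Y282.WI.Fin

theorem main : S_M :=
  M.final Pool.Agent.Y65.WI.main
    (P.main P1.main Pool.Agent.Y65.WI.mainP2 P3.main)

end Pool.Agent.Y282.WI.Fin
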