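import Pool.Agent.Y282.WI.Stm
import Pool.Agent.H240R3.WT.Final
import Pool.Agent.H240R3.WT.TL
import Pool.Agent.H115R3.WT.TaskA
import Pool.Agent.H614R3.WT.B
import Pool.Agent.H622R3.WT.E

/-! # Project WI: assembly (helper282); port of `Pool/Agent/H240R3/WT/{Concrete,Final}.lean` -/

set_option autoImplicit false

namespace Pool.Agent.Y282.WI.M

open Filter Topology Pool.Agent.H240R3.WT

noncomputable section

/-- the twelve coordinates -/
def vec {n : ℕ} (z : (Fin 11 ⊕ Fin n) → ℝ) (t : ℕ → ℝ) : Fin 12 → ℝ :=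
  ![z (Sum.inl 0) + ∑ k ∈ Finset.range n, t k,
      z (Sum.inl 1), z (Sum.inl 2), z (Sum.inl 3), z (Sum.inl 4), z (Sum.inl 5),
      z (Sum.inl 6), z (Sum.inl 7), z (Sum.inl 8), z (Sum.inl 9), z (Sum.inl 10), t 0]

theorem vec_sum {n : ℕ} (z : (Fin 11 ⊕ Fin n) → ℝ) (t : ℕ → ℝ)
    (ht : ∀ k : Fin n, t k = z (Sum.inr k)) (hz : ∑ v, z v = 1) :
    vec z t 0 + vec z t 1 + vec z t 2 + vec z t 3 + vec z t 4 + vec z t 5 + vec z t 6 +
      vec z t 7 + vec z t 8 + vec z t 9 + vec z t 10 = 1 := by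
  rw [← hz, sum_eq n z t ht]
  rfl

variable {p a r ν κ : ℝ} {x : Fin 12 → ℝ}

theorem key (hF : S_F) (hG : Good p a r ν κ x) (n : ℕ) (z : (Fin 11 ⊕ Fin n) → ℝ)
    (hz : ∑ v, z v = 1) (t : ℕ → ℝ)
    (ht : ∀ k : Fin n, t k = z (Sum.inr k)) (ht0 : ∀ k, n ≤ k → t k = 0) :
    form p (T n) z ≤ (1 - ν) - (κ * (t 0 - x 11) ^ 2 +
      a * ∑ k ∈ Finset.range n, (t (k + 1) - r * t k) ^ 2) := by
  obtain ⟨ha, hr0, hr1, h1, h2, hκ, hν0, hν1, hx, hx0, hpos, hsum, hid⟩ := hG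
  have e1 : form p (T n) z = 1 - (Pg p a (vec z t)
      + a * ∑ k ∈ Finset.range n, (t (k + 1) - r * t k) ^ 2) :=
    hF p a r h1 h2 n z t ht ht0 hz
  have e2 := hid (vec z t)
  rw [vec_sum z t ht hz] at e2
  have e3 := hpos (vec z t - x)
  have e4 : (vec z t - x) 11 = t 0 - x 11 := rfl
  rw [e4] at e3
  rw [e1]
  linarith

theorem H1c (hF : S_F) (hG : Good p a r ν κ x) (n : ℕ) (z : (T n).V → ℝ)
    (hz : z ∈ stdSimplex ℝ (T n).V) : form p (T n) z ≤ 1 - ν := by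
  let t : ℕ → ℝ := fun k => if h : k < n then z (Sum.inr ⟨k, h⟩) else 0
  have ht : ∀ k : Fin n, t k = z (Sum.inr k) := fun k => by simp [t]
  have ht0 : ∀ k, n ≤ k → t k = 0 := fun k hk => by simp [t, Nat.not_lt.mpr hk]
  have h := key hF hG n z hz.2 t ht ht0
  have h2 : 0 ≤ ∑ k ∈ Finset.range n, (t (k+1) - r * t k)^2 :=
    Finset.sum_nonneg fun _ _ => sq_nonneg _
  have h3 : 0 ≤ κ * (t 0 - x 11) ^ 2 := mul_nonneg hG.2.2.2.2.2.1.le (sq_nonneg _)
  have h4 := mul_nonneg hG.1.le h2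
  linarith

theorem H2c (hF : S_F) (hG : Good p a r ν κ x) (K : ℕ) :
    ∃ ε : ℝ, 0 < ε ∧ ∃ z0 : ℝ, 0 < z0 ∧ ∀ n,
      ∀ ζ ∈ stdSimplex ℝ (T n).V,
      (1 - ν) - ε ≤ form p (T n) ζ →
      ∃ u : Fin K → (T n).V, (∀ k, (T n).vc (u k) = VC.white) ∧
        (∀ k l, k ≠ l → p ≤ Wm p (T n) (u k) (u l)) ∧ ∀ k, z0 ≤ ζ (u k) := by
  obtain ⟨ha, hr0, hr1, h1, h2, hκ, hν0, hν1, hx, hx0, hpos, hsum, hid⟩ := hG
  have hts : 0 < x 11 := hx 11
  have h1r : 0 < 1 - r := by linarith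
  have hrK : 0 < r ^ K := pow_pos hr0 K
  set e : ℝ := r ^ K * x 11 * (1 - r) / 2 with he
  have hepos : 0 < e := by positivity
  have hmin : 0 < min κ a := lt_min hκ ha
  refine ⟨min κ a * e ^ 2, by positivity, r ^ K * x 11 / 2, by positivity, ?_⟩
  intro n z hz hform
  let t : ℕ → ℝ := fun k => if h : k < n then z (Sum.inr ⟨k, h⟩) else 0
  have ht : ∀ k : Fin n, t k = z (Sum.inr k) := fun k => by simp [t]
  have ht0 : ∀ k, n ≤ k → t k = 0 := fun k hk => by simp [t, Nat.not_lt.mpr hk]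
  have h := key hF ⟨ha, hr0, hr1, h1, h2, hκ, hν0, hν1, hx, hx0, hpos, hsum, hid⟩ n z hz.2 t ht ht0
  have h2' : 0 ≤ ∑ k ∈ Finset.range n, (t (k+1) - r * t k)^2 :=
    Finset.sum_nonneg fun _ _ => sq_nonneg _
  have hle : κ * (t 0 - x 11) ^ 2 + a * ∑ k ∈ Finset.range n, (t (k + 1) - r * t k) ^ 2
      ≤ min κ a * e ^ 2 := by linarith
  have h5 : 0 ≤ κ * (t 0 - x 11) ^ 2 := mul_nonneg hκ.le (sq_nonneg _)
  have h6 := mul_nonneg ha.le h2'
  have hA : (t 0 - x 11)^2 ≤ e^2 := by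
    have : κ * (t 0 - x 11) ^ 2 ≤ κ * e ^ 2 := by
      have : min κ a * e ^ 2 ≤ κ * e ^ 2 :=
        mul_le_mul_of_nonneg_right (min_le_left _ _) (sq_nonneg _)
      linarith
    exact le_of_mul_le_mul_left this hκ
  have hB : ∑ k ∈ Finset.range n, (t (k+1) - r * t k)^2 ≤ e^2 := by
    have : a * ∑ k ∈ Finset.range n, (t (k + 1) - r * t k) ^ 2 ≤ a * e ^ 2 := by
      have : min κ a * e ^ 2 ≤ a * e ^ 2 :=
        mul_le_mul_of_nonneg_right (min_le_right _ _) (sq_nonneg _)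
      linarith
    exact le_of_mul_le_mul_left this ha
  have hA' := abs_le_of_sq_le_sq' hA hepos.le
  have hB' : ∀ k, - e ≤ t (k+1) - r * t k := by
    intro k
    by_cases hk : k < n
    · have h3 : (t (k+1) - r * t k)^2 ≤ e^2 :=
        (Finset.single_le_sum (f := fun k => (t (k+1) - r * t k)^2)
          (fun _ _ => sq_nonneg _) (Finset.mem_range.mpr hk)).trans hB
      exact (abs_le_of_sq_le_sq' h3 hepos.le).1
    · rw [ht0 k (by omega), ht0 (k+1) (by omega)]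
      linarith
  have hind : ∀ k, (1 - r) * (r ^ k * x 11) - e ≤ (1 - r) * t k := by
    intro k
    induction k with
    | zero =>
      simp only [pow_zero, one_mul]
      have := hA'.1
      nlinarith
    | succ k ih =>
      have h7 := mul_le_mul_of_nonneg_left (hB' k) h1r.le
      have h8 := mul_le_mul_of_nonneg_left ih hr0.le
      rw [pow_succ]
      nlinarith
  have hlow : ∀ k : Fin K, r ^ K * x 11 / 2 ≤ t k := by
    intro k
    have h3 := hind k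
    have h4 : r ^ K ≤ r ^ (k : ℕ) := pow_le_pow_of_le_one hr0.le hr1.le k.2.le
    have h5 : r ^ K * x 11 ≤ r ^ (k : ℕ) * x 11 := mul_le_mul_of_nonneg_right h4 hts.le
    have h9 : (1 - r) * (r ^ K * x 11) ≤ (1 - r) * (r ^ (k : ℕ) * x 11) :=
      mul_le_mul_of_nonneg_left h5 h1r.le
    have h10 : (1 - r) * (r ^ K * x 11 / 2) ≤ (1 - r) * t k := by
      rw [he] at h3
      linarith
    exact le_of_mul_le_mul_left h10 h1r
  have hlt : ∀ k : Fin K, (k : ℕ) < n := by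
    intro k
    by_contra hk
    have h3 := hlow k
    rw [ht0 k (by omega)] at h3
    have h6 : 0 < r ^ K * x 11 := by positivity
    linarith
  refine ⟨fun k => Sum.inr ⟨k, hlt k⟩, fun k => rfl, ?_, ?_⟩
  · intro k l hkl
    have hne : (Sum.inr ⟨k, hlt k⟩ : Fin 11 ⊕ Fin n) ≠ Sum.inr ⟨l, hlt l⟩ := by
      intro h7
      have h8 := Sum.inr.inj h7
      exact hkl (Fin.ext (by simpa using congrArg Fin.val h8))
    have hW : Wm p (T n) (Sum.inr ⟨k, hlt k⟩ : Fin 11 ⊕ Fin n)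
        (Sum.inr ⟨l, hlt l⟩ : Fin 11 ⊕ Fin n) = wE p (chainEC k l) := by
      unfold Wm
      exact if_neg hne
    change p ≤ Wm p (T n) (Sum.inr ⟨k, hlt k⟩ : Fin 11 ⊕ Fin n)
        (Sum.inr ⟨l, hlt l⟩ : Fin 11 ⊕ Fin n)
    rw [hW]
    have har : 0 < a * r := mul_pos ha hr0
    unfold chainEC
    split_ifs
    · simp only [wE]; linarith
    · simp only [wE]; exact le_refl _
  · intro k
    have := hlow k
    rw [ht ⟨k, hlt k⟩] at this
    exact this

theorem geom (hr1 : r < 1) (n : ℕ) :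
    ∑ k ∈ Finset.range n, r ^ k = (1 - r ^ n) / (1 - r) := by
  have h1r : 1 - r ≠ 0 := by linarith
  induction n with
  | zero => simp
  | succ n ih => rw [Finset.sum_range_succ, ih, pow_succ]; field_simp; ring

theorem H3c (hF : S_F) (hG : Good p a r ν κ x) (ε : ℝ) (hε : 0 < ε) :
    ∃ n, ∃ ζ ∈ stdSimplex ℝ (T n).V, (1 - ν) - ε ≤ form p (T n) ζ := by
  obtain ⟨ha, hr0, hr1, h1, h2, hκ, hν0, hν1, hx, hx0, hpos, hsum, hid⟩ := hG
  have hts : 0 < x 11 := hx 11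
  have h1r : 0 < 1 - r := by linarith
  have hden : 0 < a * (x 11) ^ 2 + 1 := by positivity
  obtain ⟨n, hn⟩ := exists_pow_lt_of_lt_one (div_pos hε hden) hr1
  refine ⟨n + 1, ?_⟩
  let c0 : ℝ := x 0 - ∑ k ∈ Finset.range (n+1), x 11 * r ^ k
  have hc0 : 0 ≤ c0 := by
    have h1 : ∑ k ∈ Finset.range (n+1), x 11 * r ^ k = x 11 * ((1 - r ^ (n+1)) / (1 - r)) := by
      rw [← Finset.mul_sum, geom hr1]
    have h2 : (0:ℝ) < r ^ (n+1) := pow_pos hr0 _
    have h3 : x 11 * ((1 - r ^ (n+1)) / (1 - r)) ≤ x 0 := by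
      rw [← mul_div_assoc, div_le_iff₀ h1r]
      have : x 11 * (1 - r ^ (n+1)) ≤ x 11 * 1 :=
        mul_le_mul_of_nonneg_left (by linarith) hts.le
      linarith
    show 0 ≤ x 0 - ∑ k ∈ Finset.range (n+1), x 11 * r ^ k
    rw [h1]
    linarith
  let cv : Fin 11 → ℝ := ![c0, x 1, x 2, x 3, x 4, x 5, x 6, x 7, x 8, x 9, x 10]
  let z : (Fin 11 ⊕ Fin (n+1)) → ℝ := Sum.elim cv (fun k => x 11 * r ^ (k : ℕ))
  let t : ℕ → ℝ := fun k => if k < n + 1 then x 11 * r ^ k else 0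
  have ht : ∀ k : Fin (n+1), t k = z (Sum.inr k) := fun k => by
    show (if (k : ℕ) < n + 1 then x 11 * r ^ (k : ℕ) else 0) = x 11 * r ^ (k : ℕ)
    rw [if_pos k.2]
  have ht0 : ∀ k, n + 1 ≤ k → t k = 0 := fun k hk => by
    simp only [t]; rw [if_neg (by omega)]
  have hsumt : ∑ k ∈ Finset.range (n+1), t k = ∑ k ∈ Finset.range (n+1), x 11 * r ^ k := by
    refine Finset.sum_congr rfl fun k hk => ?_
    simp only [t]; rw [if_pos (Finset.mem_range.mp hk)]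
  have hm : z (Sum.inl 0) + ∑ k ∈ Finset.range (n+1), t k = x 0 := by
    rw [hsumt]
    show c0 + _ = _
    simp only [c0]
    ring
  have h0 : t 0 = x 11 := by simp [t]
  have hv : vec z t = x := by
    funext i
    unfold vec
    rw [hm, h0]
    fin_cases i <;> rfl
  have hsumz : ∑ v, z v = 1 := by
    rw [sum_eq (n+1) z t ht, hm]
    exact hsum
  refine ⟨z, ⟨?_, hsumz⟩, ?_⟩
  · rintro (i | k)
    · show 0 ≤ cv i
      fin_cases i
      · exact hc0
      all_goals exact (hx _).le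
    · show 0 ≤ x 11 * r ^ (k : ℕ)
      positivity
  · have e1 : form p (T (n + 1)) z = 1 - (Pg p a (vec z t)
        + a * ∑ k ∈ Finset.range (n + 1), (t (k + 1) - r * t k) ^ 2) :=
      hF p a r h1 h2 (n + 1) z t ht ht0 hsumz
    have hPq : Pg p a (vec z t) = ν := by
      have e2 := hid x
      rw [hsum, sub_self, sub_self, mul_zero] at e2
      have e3 : Pg p a (0 : Fin 12 → ℝ) = 0 := by simp [Pg]
      rw [hv, e2, e3]
      ring
    have hch : ∑ k ∈ Finset.range (n+1), (t (k+1) - r * t k)^2 =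
        (r * (x 11 * r ^ n))^2 := by
      rw [Finset.sum_range_succ]
      have h1 : ∑ k ∈ Finset.range n, (t (k+1) - r * t k)^2 = 0 := by
        refine Finset.sum_eq_zero fun k hk => ?_
        have hk' := Finset.mem_range.mp hk
        simp only [t]
        rw [if_pos (by omega), if_pos (by omega), pow_succ]
        ring
      rw [h1, zero_add]
      simp only [t]
      rw [if_neg (by omega), if_pos (by omega)]
      ring
    rw [hPq, hch] at e1
    have h3 : a * (r * (x 11 * r ^ n))^2 ≤ ε := by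
      have h4 : (0:ℝ) < r ^ n := pow_pos hr0 n
      have h5 : r ^ n ≤ 1 := pow_le_one₀ hr0.le hr1.le
      have h6 : a * (r * (x 11 * r ^ n))^2 = (a * (x 11)^2) * (r ^ 2 * (r ^ n * r ^ n)) := by ring
      have h7 : r ^ 2 * (r ^ n * r ^ n) ≤ 1 * (r ^ n * 1) := by
        apply mul_le_mul
        · nlinarith
        · exact mul_le_mul_of_nonneg_left h5 h4.le
        · positivity
        · exact zero_le_one
      have h8 : r ^ n * (a * (x 11) ^ 2 + 1) < ε := by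
        rwa [lt_div_iff₀ hden] at hn
      have h9 : (a * (x 11)^2) * (r ^ 2 * (r ^ n * r ^ n)) ≤ (a * (x 11)^2) * (1 * (r ^ n * 1)) :=
        mul_le_mul_of_nonneg_left h7 (by positivity)
      rw [h6]
      nlinarith
    show (1 - ν) - ε ≤ form p (T (n+1)) z
    rw [e1]
    linarith

theorem final (hF : S_F) (hP : S_P) : S_M := by
  have hA : TaskA := Pool.Agent.H115R3.WT.taskA
  have hB : TaskB := Pool.Agent.H614R3.WT.taskB
  have hL : TaskL := taskL Pool.Agent.H614R3.WT.taskB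
  have hE : TaskE := Pool.Agent.H622R3.WT.taskE
  let 𝓗 : Set MG := {H | ∀ n, ¬ Colourable (T n) H}
  have hT : ∀ n, TFree 𝓗 (T n) := fun n H hH => hH n
  obtain ⟨δ, hδ, hgood⟩ := hP
  refine ⟨𝓗, ?_, ⟨T 0, hT 0⟩, δ, hδ, ?_⟩
  · obtain ⟨H, hH⟩ := hE
    exact ⟨H, hH⟩
  intro p hp
  obtain ⟨a, r, ν, κ, x, hG⟩ := hgood p hp
  obtain ⟨ha, hr0, hr1, h1, h2, hκ, hν0, hν1, -⟩ := id hG
  have hp0' : 0 < p := by rw [← h1]; positivity
  have hp1 : p ≤ 1 := by
    have := mul_pos ha hr0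
    linarith
  obtain ⟨μ, hμ⟩ := hL p hp0'.le hp1 𝓗
    (fun n => exists_free hA 𝓗 (T 0) (hT 0) (Sum.inl 0 : Fin 11 ⊕ Fin 0) n)
  refine ⟨hp0'.le, hp1, μ, hμ, ?_⟩
  intro τ hτ
  have h1 : lam p τ < 1 - ν :=
    main_upper hA p (1 - ν) hp0'.le hp1 (by linarith) p hp0' T
      (fun n ζ hζ => H1c hF hG n ζ hζ) (fun K => H2c hF hG K) τ hτ
  have h2 : 1 - ν ≤ μ := by
    refine ge_of_tendsto hμ ?_
    filter_upwards [eventually_ge_atTop 2] with N hN
    exact lower hA hB hp0'.le hp1 𝓗 T hT (fun ε hε => H3c hF hG ε hε) N hN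
  exact lt_of_lt_of_le h1 h2

end

end Pool.Agent.Y282.WI.M
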