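import Pool.Agent.H240R3.WT.Main

/-! # Project WI (helper282): the weak type supremum is not attained for an interval of `p`

`T n` are the weak types of the starting library (`Pool.Agent.H240R3.WT`). -/

set_option autoImplicit false

namespace Pool.Agent.Y282.WI

open Filter Topology Pool.Agent.H240R3.WT

/-- the core form for general `p`; coordinates: `x 0 = m`, `x i = c i` for `1 ≤ i ≤ 10`,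
`x 11` = weight of the first chain vertex -/
noncomputable def Pg (p a : ℝ) (x : Fin 12 → ℝ) : ℝ :=
  (1 - p) * x 0 ^ 2 + x 1 ^ 2 + x 2 ^ 2 + x 3 ^ 2 + x 4 ^ 2 + x 5 ^ 2 + x 6 ^ 2 + x 7 ^ 2
    + x 8 ^ 2 + x 9 ^ 2 + x 10 ^ 2
  + 2 * (1 - p) * (x 0 * x 1 + x 1 * x 2 + x 3 * x 4)
  + 2 * p * (x 0 * x 2 + x 0 * x 3 + x 0 * x 4 + x 0 * x 5 + x 1 * x 3 + x 1 * x 5
      + x 2 * x 5 + x 4 * x 5 + x 2 * x 6 + x 6 * x 7 + x 7 * x 8 + x 8 * x 9 + x 9 * x 10)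
  + 2 * (1 - 2 * p) * (x 2 - x 1) * x 11
  + a * x 11 ^ 2

/-- F: the form of `T n` for general `p` (the starting library has `p = 53/120`, `a = 49/120`,
`r = 2/7` in `Pool/Agent/H240R3/WT/TaskC.lean`). -/
def S_F : Prop := ∀ (p a r : ℝ), a * (1 + r ^ 2) = p → a * r = 1 - 2 * p →
  ∀ (n : ℕ) (z : (Fin 11 ⊕ Fin n) → ℝ) (t : ℕ → ℝ),
  (∀ k : Fin n, t k = z (Sum.inr k)) → (∀ k, n ≤ k → t k = 0) → ∑ v, z v = 1 →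
  form p (T n) z = 1 - (Pg p a ![z (Sum.inl 0) + ∑ k ∈ Finset.range n, t k,
      z (Sum.inl 1), z (Sum.inl 2), z (Sum.inl 3), z (Sum.inl 4), z (Sum.inl 5),
      z (Sum.inl 6), z (Sum.inl 7), z (Sum.inl 8), z (Sum.inl 9), z (Sum.inl 10), t 0]
    + a * ∑ k ∈ Finset.range n, (t (k + 1) - r * t k) ^ 2)

/-- data of the optimum of the core form at `p` -/
def Good (p a r ν κ : ℝ) (x : Fin 12 → ℝ) : Prop :=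
  0 < a ∧ 0 < r ∧ r < 1 ∧ a * (1 + r ^ 2) = p ∧ a * r = 1 - 2 * p ∧ 0 < κ ∧ 0 < ν ∧ ν < 1 ∧
  (∀ i, 0 < x i) ∧ x 11 ≤ (1 - r) * x 0 ∧
  (∀ y : Fin 12 → ℝ, κ * y 11 ^ 2 ≤ Pg p a y) ∧
  x 0 + x 1 + x 2 + x 3 + x 4 + x 5 + x 6 + x 7 + x 8 + x 9 + x 10 = 1 ∧
  (∀ y : Fin 12 → ℝ, Pg p a y = ν
    + 2 * ν * (y 0 + y 1 + y 2 + y 3 + y 4 + y 5 + y 6 + y 7 + y 8 + y 9 + y 10 - 1)
    + Pg p a (y - x))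

/-- P: perturbation of the optimum -/
def S_P : Prop := ∃ δ : ℝ, 0 < δ ∧ ∀ p : ℝ, |p - 53 / 120| < δ →
  ∃ (a r ν κ : ℝ) (x : Fin 12 → ℝ), Good p a r ν κ x

/-- the matrix of the core form: `Pg p a x = x ⬝ᵥ (Am p a).mulVec x` -/
noncomputable def Am (p a : ℝ) : Matrix (Fin 12) (Fin 12) ℝ := !![
  1 - p, 1 - p, p, p, p, p, 0, 0, 0, 0, 0, 0;
  1 - p, 1, 1 - p, p, 0, p, 0, 0, 0, 0, 0, -(1 - 2 * p);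
  p, 1 - p, 1, 0, 0, p, p, 0, 0, 0, 0, 1 - 2 * p;
  p, p, 0, 1, 1 - p, 0, 0, 0, 0, 0, 0, 0;
  p, 0, 0, 1 - p, 1, p, 0, 0, 0, 0, 0, 0;
  p, p, p, 0, p, 1, 0, 0, 0, 0, 0, 0;
  0, 0, p, 0, 0, 0, 1, p, 0, 0, 0, 0;
  0, 0, 0, 0, 0, 0, p, 1, p, 0, 0, 0;
  0, 0, 0, 0, 0, 0, 0, p, 1, p, 0, 0;
  0, 0, 0, 0, 0, 0, 0, 0, p, 1, p, 0;
  0, 0, 0, 0, 0, 0, 0, 0, 0, p, 1, 0;
  0, -(1 - 2 * p), 1 - 2 * p, 0, 0, 0, 0, 0, 0, 0, 0, a]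

/-- P1: the matrix -/
def S_P1 : Prop := (∀ p a (x : Fin 12 → ℝ), Pg p a x = x ⬝ᵥ (Am p a).mulVec x) ∧
  (∀ p a (x y : Fin 12 → ℝ), x ⬝ᵥ (Am p a).mulVec y = y ⬝ᵥ (Am p a).mulVec x)

/-- P2: at `p = 53/120`, `a = 49/120` -/
def S_P2 : Prop := ∃ (ν : ℝ) (x : Fin 12 → ℝ), 0 < ν ∧ ν < 1 ∧ (∀ i, 0 < x i) ∧
  x 11 < (1 - 2 / 7) * x 0 ∧
  x 0 + x 1 + x 2 + x 3 + x 4 + x 5 + x 6 + x 7 + x 8 + x 9 + x 10 = 1 ∧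
  (Am (53 / 120) (49 / 120)).mulVec x = fun i => if i = 11 then 0 else ν

/-- P3: positive definiteness at `p = 53/120`, `a = 49/120` -/
def S_P3 : Prop := ∀ y : Fin 12 → ℝ, y ≠ 0 → 0 < Pg (53 / 120) (49 / 120) y

/-- M: the result for an interval of `p` -/
def S_M : Prop := ∃ 𝓗 : Set MG, 𝓗.Nonempty ∧ (∃ τ, TFree 𝓗 τ) ∧
  ∃ δ : ℝ, 0 < δ ∧ ∀ p : ℝ, |p - 53 / 120| < δ → 0 ≤ p ∧ p ≤ 1 ∧ ∃ μ : ℝ,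
    Tendsto (fun n : ℕ => ex p 𝓗 n / (n.choose 2 : ℝ)) atTop (𝓝 μ) ∧
    ∀ τ : WType, TFree 𝓗 τ → lam p τ < μ

end Pool.Agent.Y282.WI
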